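import Pool.Agent.Helper18.BV.St

set_option autoImplicit false

/-!
# Lower bound for L(1, χ), complex characters (project BV, module BV-2)
-/

open Finset Filter Topology

namespace Pool.Agent.Helper30.BV

open Pool.Agent.Helper18.BV

theorem zeta_bound {x : ℝ} (hx : 0 < x) : ‖riemannZeta (1 + x)‖ ≤ 1 / x + 1 := by
  have hre : 1 < ((1 : ℂ) + x).re := by simp [hx]
  rw [zeta_eq_tsum_one_div_nat_add_one_cpow hre]
  have hn : ∀ n : ℕ, ‖1 / ((n : ℂ) + 1) ^ ((1 : ℂ) + x)‖ = 1 / ((n : ℝ) + 1) ^ (1 + x) := by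
    intro n
    rw [norm_div, norm_one]
    congr 1
    have h1 : ((n : ℂ) + 1) = (((n : ℝ) + 1 : ℝ) : ℂ) := by push_cast; ring
    rw [h1, Complex.norm_cpow_eq_rpow_re_of_pos (by positivity)]
    simp
  have hs1 : 1 < 1 + x := by linarith
  have hsum : Summable (fun n : ℕ => ‖1 / ((n : ℂ) + 1) ^ ((1 : ℂ) + x)‖) := by
    simp_rw [hn]
    have h2 := (Real.summable_one_div_nat_rpow (p := 1 + x)).2 hs1
    have h3 := (summable_nat_add_iff 1).2 h2
    refine h3.congr fun n => ?_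
    push_cast
    rfl
  refine (norm_tsum_le_tsum_norm hsum).trans ?_
  simp_rw [hn]
  have h4 := ZetaAsymptotics.zeta_limit_aux1 hs1
  have h5 : 0 ≤ ZetaAsymptotics.termTSum (1 + x) :=
    tsum_nonneg fun n => ZetaAsymptotics.term_nonneg _ _
  have h6 : 1 / (1 + x - 1) = 1 / x := by ring_nf
  rw [h6] at h4
  nlinarith

theorem triv_bound (q : ℕ) [NeZero q] {x : ℝ} (hx : 0 < x) (hx1 : x ≤ 1) :
    ‖DirichletCharacter.LFunctionTrivChar q (1 + x)‖ ≤ 2 / x := by
  have hne : (1 : ℂ) + x ≠ 1 := by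
    intro h
    have h1 := congrArg Complex.re h
    simp at h1
    exact hx.ne' h1
  rw [DirichletCharacter.LFunctionTrivChar_eq_mul_riemannZeta hne, norm_mul]
  have hprod : ‖∏ p ∈ q.primeFactors, (1 - (p : ℂ) ^ (-((1 : ℂ) + x)))‖ ≤ 1 := by
    rw [norm_prod]
    apply Finset.prod_le_one
    · intro p _
      exact norm_nonneg _
    · intro p hp
      have hp1 : (1 : ℝ) ≤ p := by exact_mod_cast (Nat.prime_of_mem_primeFactors hp).one_lt.le
      have h1 : (p : ℂ) ^ (-((1 : ℂ) + x)) = (((p : ℝ) ^ (-(1 + x)) : ℝ) : ℂ) := by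
        rw [Complex.ofReal_cpow (by linarith)]
        push_cast
        rfl
      have h2 : 0 ≤ (p : ℝ) ^ (-(1 + x)) := by positivity
      have h3 : (p : ℝ) ^ (-(1 + x)) ≤ 1 := Real.rpow_le_one_of_one_le_of_nonpos hp1 (by linarith)
      rw [h1, ← Complex.ofReal_one, ← Complex.ofReal_sub, Complex.norm_real, Real.norm_eq_abs,
        abs_of_nonneg (by linarith)]
      linarith
  have hz := zeta_bound hx
  have h7 : 1 / x + 1 ≤ 2 / x := by
    rw [div_add' _ _ _ hx.ne']
    apply div_le_div_of_nonneg_right _ hx.le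
    linarith
  calc ‖∏ p ∈ q.primeFactors, (1 - (p : ℂ) ^ (-((1 : ℂ) + x)))‖ * ‖riemannZeta (1 + x)‖
      ≤ 1 * (1 / x + 1) := mul_le_mul hprod hz (norm_nonneg _) zero_le_one
    _ ≤ 2 / x := by linarith

/-- A2: lower bound for `L(1, χ)`, complex characters. -/
theorem lComplex (h : LUpper) : LComplex := by
  intro ε hε
  obtain ⟨r, C0, hr, hr4, hC0, hL⟩ := h (ε / 4) (by positivity)
  obtain ⟨C, hCdef⟩ : ∃ C, C = max C0 1 := ⟨_, rfl⟩
  have hC1 : 1 ≤ C := by rw [hCdef]; exact le_max_right _ _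
  have hCC : C0 ≤ C := by rw [hCdef]; exact le_max_left _ _
  refine ⟨r / (128 * C ^ 4), by positivity, ?_⟩
  intro q _ χ hχ2
  have hχ : χ ≠ 1 := by
    rintro rfl
    exact hχ2 (one_pow 2)
  have hq0 : (1 : ℝ) ≤ q := by exact_mod_cast Nat.one_le_iff_ne_zero.2 (NeZero.ne q)
  set T : ℝ := (q : ℝ) ^ (ε / 4) with hT
  have hT1 : 1 ≤ T := Real.one_le_rpow hq0 (by positivity)
  have hT4 : T ^ 4 = (q : ℝ) ^ ε := by
    rw [hT, ← Real.rpow_natCast, ← Real.rpow_mul (by linarith)]
    congr 1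
    push_cast
    ring
  set x : ℝ := r / (128 * C ^ 5 * T ^ 5) with hx
  have hden : 1 ≤ 128 * C ^ 5 * T ^ 5 := by
    have h1 : 1 ≤ C ^ 5 := one_le_pow₀ hC1
    have h2 : 1 ≤ T ^ 5 := one_le_pow₀ hT1
    nlinarith
  have hx0 : 0 < x := by positivity
  have hxr : x ≤ r := div_le_self hr.le hden
  have hx1 : x ≤ 1 := by linarith
  -- the product inequality
  have hprod := χ.norm_LFunction_product_ge_one hx0 0
  simp only [Complex.ofReal_zero, mul_zero, add_zero] at hprod
  rw [norm_mul, norm_mul, norm_pow, norm_pow] at hprod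
  have hb1 : ‖((1 : ℂ) + x) - 1‖ ≤ r := by
    have : ((1 : ℂ) + x) - 1 = (x : ℂ) := by ring
    rw [this, Complex.norm_real, Real.norm_eq_abs, abs_of_pos hx0]
    exact hxr
  have hL2 : ‖DirichletCharacter.LFunction (χ ^ 2) (1 + x)‖ ≤ C * T :=
    ((hL q (χ ^ 2) hχ2 _ hb1).1).trans (mul_le_mul_of_nonneg_right hCC (by positivity))
  have htr := triv_bound q hx0 hx1
  set ℓ := ‖DirichletCharacter.LFunction χ 1‖ with hℓ
  -- continuity
  have hdiff : ‖DirichletCharacter.LFunction χ (1 + x) - DirichletCharacter.LFunction χ 1‖ ≤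
      C * T * x := by
    have hconv : Convex ℝ (Metric.closedBall (1 : ℂ) r) := convex_closedBall _ _
    have h1 := hconv.norm_image_sub_le_of_norm_deriv_le (f := DirichletCharacter.LFunction χ)
      (C := C * T) (x := (1 : ℂ)) (y := 1 + x)
      (fun z _ => (DirichletCharacter.differentiable_LFunction hχ) z)
      (fun z hz => by
        rw [mem_closedBall_iff_norm] at hz
        exact ((hL q χ hχ z hz).2).trans (mul_le_mul_of_nonneg_right hCC (by positivity)))
      (Metric.mem_closedBall_self hr.le)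
      (by rw [mem_closedBall_iff_norm]; exact hb1)
    have h2 : ‖((1 : ℂ) + x) - 1‖ = x := by
      have : ((1 : ℂ) + x) - 1 = (x : ℂ) := by ring
      rw [this, Complex.norm_real, Real.norm_eq_abs, abs_of_pos hx0]
    rw [h2] at h1
    exact h1
  set y := ‖DirichletCharacter.LFunction χ (1 + x)‖ with hy
  have hyℓ : y ≤ ℓ + C * T * x := by
    have h1 := norm_le_norm_add_norm_sub' (DirichletCharacter.LFunction χ (1 + x))
      (DirichletCharacter.LFunction χ 1)
    linarith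
  have hy0 : 0 ≤ y := norm_nonneg _
  have hℓ0 : 0 ≤ ℓ := norm_nonneg _
  have h3 : 1 ≤ (2 / x) ^ 3 * y ^ 4 * (C * T) := by
    refine le_trans hprod ?_
    apply mul_le_mul _ hL2 (norm_nonneg _) (by positivity)
    apply mul_le_mul_of_nonneg_right _ (by positivity)
    exact pow_le_pow_left₀ (norm_nonneg _) htr 3
  have h4 : x ^ 3 ≤ 8 * C * T * y ^ 4 := by
    have h5 : (2 / x) ^ 3 * y ^ 4 * (C * T) = 8 * C * T * y ^ 4 / x ^ 3 := by
      field_simp
      ring
    rw [h5, le_div_iff₀ (by positivity)] at h3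
    linarith
  have h6 : x * (128 * C ^ 5 * T ^ 5) ≤ 1 := by
    rw [hx, div_mul_cancel₀ _ (by positivity)]
    linarith
  have h7 : (2 * (C * T * x)) ^ 4 ≤ y ^ 4 := by
    have h8 : 8 * C * T * (2 * (C * T * x)) ^ 4 ≤ x ^ 3 := by
      have h9 : 8 * C * T * (2 * (C * T * x)) ^ 4 = x ^ 3 * (x * (128 * C ^ 5 * T ^ 5)) := by
        ring
      rw [h9]
      have : 0 ≤ x ^ 3 := by positivity
      nlinarith
    have h10 : 0 < 8 * C * T := by positivity
    nlinarith
  have h11 : 2 * (C * T * x) ≤ y := le_of_pow_le_pow_left₀ (by norm_num) hy0 h7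
  have h12 : C * T * x ≤ ℓ := by linarith
  refine le_trans (le_of_eq ?_) h12
  rw [Real.rpow_neg (by linarith), ← hT4, hx]
  field_simp

end Pool.Agent.Helper30.BV
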